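import Pool.Agent.K3h22.EX.Stm7

/-! ET2 brick CUT2: the matroid of algebraic independence for the variables modulo a prime ideal. -/

set_option autoImplicit false

namespace Pool.Agent.K3h37.ET

open MvPolynomial Pool.Agent.K3h22.EX

variable {σ : Type} [DecidableEq σ]

theorem indepI_iff (P : Ideal (MvPolynomial σ ℂ)) (J : Finset σ) :
    IndepI P J ↔ AlgebraicIndependent ℂ
      (fun j : (J : Set σ) => (Ideal.Quotient.mk P (X (j : σ)) : MvPolynomial σ ℂ ⧸ P)) := by
  have key : ∀ g : MvPolynomial (J : Set σ) ℂ,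
      aeval (fun j : (J : Set σ) => (Ideal.Quotient.mk P (X (j : σ)) : MvPolynomial σ ℂ ⧸ P)) g =
        Ideal.Quotient.mk P (rename (Subtype.val : ↥(J : Set σ) → σ) g) := by
    intro g
    have h : (aeval (fun j : (J : Set σ) =>
        (Ideal.Quotient.mk P (X (j : σ)) : MvPolynomial σ ℂ ⧸ P))) =
        (Ideal.Quotient.mkₐ ℂ P).comp (rename (Subtype.val : ↥(J : Set σ) → σ)) := by
      apply MvPolynomial.algHom_ext
      intro i
      simp
    rw [h]
    rfl
  rw [algebraicIndependent_iff]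
  constructor
  · intro h g hg
    rw [key] at hg
    have h1 := h _ ?_ (Ideal.Quotient.eq_zero_iff_mem.mp hg)
    · exact rename_injective _ Subtype.val_injective (by rw [h1, map_zero])
    · intro i hi
      have h2 := vars_rename _ _ hi
      rw [Finset.mem_image] at h2
      obtain ⟨a, -, rfl⟩ := h2
      exact a.2
  · intro h f hf hfP
    obtain ⟨g, rfl⟩ := exists_rename_eq_of_vars_subset_range f
      (Subtype.val : ↥(J : Set σ) → σ) Subtype.val_injective (by
        rw [Subtype.range_coe]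
        exact_mod_cast hf)
    rw [h g (by rw [key]; exact Ideal.Quotient.eq_zero_iff_mem.mpr hfP), map_zero]

instance faith (P : Ideal (MvPolynomial σ ℂ)) [P.IsPrime] :
    FaithfulSMul ℂ (MvPolynomial σ ℂ ⧸ P) :=
  haveI : Nontrivial (MvPolynomial σ ℂ ⧸ P) := Ideal.Quotient.nontrivial_iff.mpr
    (Ideal.IsPrime.ne_top inferInstance)
  (faithfulSMul_iff_algebraMap_injective ℂ (MvPolynomial σ ℂ ⧸ P)).mpr
    (algebraMap ℂ (MvPolynomial σ ℂ ⧸ P)).injective

/-- the matroid on the variables -/
noncomputable def mat (P : Ideal (MvPolynomial σ ℂ)) [P.IsPrime] : Matroid σ :=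
  (AlgebraicIndependent.matroid ℂ (MvPolynomial σ ℂ ⧸ P)).comap
    (fun v => Ideal.Quotient.mk P (X v))

theorem mat_indep (P : Ideal (MvPolynomial σ ℂ)) [P.IsPrime] (J : Finset σ) :
    (mat P).Indep (J : Set σ) ↔ IndepI P J := by
  rw [indepI_iff, mat, Matroid.comap_indep_iff, AlgebraicIndependent.matroid_indep_iff]
  constructor
  · rintro ⟨h1, h2⟩
    exact (algebraicIndependent_image h2).mpr h1
  · intro h
    have h2 : Set.InjOn (fun v => (Ideal.Quotient.mk P (X v) : MvPolynomial σ ℂ ⧸ P)) (J : Set σ) :=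
      Set.injOn_iff_injective.2 h.injective
    exact ⟨(algebraicIndependent_image h2).mp h, h2⟩

omit [DecidableEq σ] in
theorem mat_E (P : Ideal (MvPolynomial σ ℂ)) [P.IsPrime] : (mat P).E = Set.univ := by
  rw [mat, Matroid.comap_ground_eq]
  rfl

theorem mat_base (P : Ideal (MvPolynomial σ ℂ)) [P.IsPrime] (B : Finset σ) :
    (mat P).IsBase (B : Set σ) ↔ BasisI P B := by
  constructor
  · intro h
    refine ⟨(mat_indep P B).mp h.indep, fun v hv hi => ?_⟩
    have h1 := h.insert_dep (e := v) (by rw [mat_E]; exact ⟨Set.mem_univ _, by exact_mod_cast hv⟩)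
    rw [← mat_indep, Finset.coe_insert] at hi
    exact h1.not_indep hi
  · rintro ⟨h1, h2⟩
    refine ((mat_indep P B).mpr h1).isBase_of_forall_insert fun e he hi => ?_
    rw [← Finset.coe_insert, mat_indep] at hi
    exact h2 e (by exact_mod_cast he.2) hi

theorem t_CUT2 : S_CUT2 := by
  intro σ _ _ P hP
  have h1 : ∀ B J : Finset σ, BasisI P B → IndepI P J → J.card ≤ B.card := by
    intro B J hB hJ
    obtain ⟨B', hB', hs⟩ := ((mat_indep P J).mpr hJ).exists_isBase_superset
    have h := ((mat_base P B).mpr hB).ncard_eq_ncard_of_isBase hB'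
    rw [Set.ncard_coe_finset] at h
    rw [h, ← Set.ncard_coe_finset]
    exact Set.ncard_le_ncard hs (Set.toFinite _)
  refine ⟨h1, fun T J hT hJ => ?_⟩
  obtain ⟨B, hB, hs⟩ := ((mat_indep P T).mpr hT).exists_isBase_superset
  have hf : B.Finite := Set.toFinite _
  obtain ⟨B, rfl⟩ := hf.exists_finset_coe
  have hB' := (mat_base P B).mp hB
  exact ⟨B, by exact_mod_cast hs, h1 B J hB' hJ, hB'⟩

end Pool.Agent.K3h37.ET
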